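import Pool.Agent.Helper65.HP.Fin

/-! # MP_17493e_an: the hull of every closed prime ideal of `H^∞ + C` is `t`-analytic

The circle is `UnitAddCircle = ℝ / ℤ` (the class of `t` stands for the point `exp (2 π i t)`) with
its normalised Haar measure `haarAddCircle`; `fourierCoeff` is Mathlib's Fourier coefficient. -/

set_option autoImplicit false

namespace Pool.Agent.Results.MP_17493e_an.HullTAnalytic

open MeasureTheory AddCircle

noncomputable section

/-- normalised Lebesgue measure on the circle -/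
abbrev μ : Measure UnitAddCircle := haarAddCircle

/-- the ring of complex functions on the circle modulo equality almost everywhere, with the
pointwise operations -/
abbrev Cls : Type := Filter.Germ (ae μ) ℂ

/-- the class of a function modulo equality almost everywhere -/
def cls (f : UnitAddCircle → ℂ) : Cls := (f : Filter.Germ (ae μ) ℂ)

/-- `H^∞`, the boundary functions of the bounded analytic functions on the disc: the measurable,
essentially bounded functions on the circle whose negative Fourier coefficients vanish -/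
def Hinf : Set (UnitAddCircle → ℂ) :=
  {h | MemLp h ⊤ μ ∧ ∀ n : ℤ, n < 0 → fourierCoeff h n = 0}

/-- the classes of all functions `h + c` with `h ∈ H^∞` and `c` continuous -/
def hcSet : Set Cls :=
  {F | ∃ h ∈ Hinf, ∃ c : C(UnitAddCircle, ℂ), F = cls (fun t => h t + c t)}

theorem mul_hc {F G : Cls} (hF : F ∈ hcSet) (hG : G ∈ hcSet) : F * G ∈ hcSet :=
  Pool.Agent.Helper65.HP.HC.mul_mem hF hG

theorem add_hc {F G : Cls} (hF : F ∈ hcSet) (hG : G ∈ hcSet) : F + G ∈ hcSet :=
  Pool.Agent.Helper65.HP.HC.add_mem hF hG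

theorem neg_hc {F : Cls} (hF : F ∈ hcSet) : -F ∈ hcSet := Pool.Agent.Helper65.HP.HC.neg_mem hF

theorem one_hc : (1 : Cls) ∈ hcSet := Pool.Agent.Helper65.HP.HC.one_mem

theorem zero_hc : (0 : Cls) ∈ hcSet := Pool.Agent.Helper65.HP.HC.zero_mem

theorem const_hc (c : ℂ) : cls (fun _ => c) ∈ hcSet := (Pool.Agent.Helper65.HP.cst c).2

/-- the algebra `A = H^∞ + C`, as a ring of classes of functions -/
def A : Subring Cls where
  carrier := hcSet
  mul_mem' := mul_hc
  one_mem' := one_hc
  add_mem' := add_hc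
  zero_mem' := zero_hc
  neg_mem' := neg_hc

/-- the constant function `c` as an element of `A` -/
def const (c : ℂ) : A := ⟨cls fun _ => c, const_hc c⟩

/-- `I` is closed in the norm of `L^∞`: if for every `ε > 0` there is `G ∈ I` with
`|F - G| ≤ ε` almost everywhere, then `F ∈ I` -/
def IsNormClosed (I : Ideal A) : Prop :=
  ∀ F : A, (∀ ε : ℝ, 0 < ε → ∃ G ∈ I, ((F : Cls) - (G : Cls)).LiftPred fun w => ‖w‖ ≤ ε) → F ∈ I

/-- the maximal ideal space `M(A)`: the nonzero multiplicative linear functionals on `A`. The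
Gelfand topology is the one induced by the product topology of `A → ℂ` -/
def M : Set (A → ℂ) :=
  {x | (∀ f g, x (f + g) = x f + x g) ∧ (∀ (c : ℂ) (f : A), x (const c * f) = c * x f) ∧
    (∀ f g, x (f * g) = x f * x g) ∧ ∃ f, x f ≠ 0}

/-- the hull of an ideal: its common zeros in `M(A)` -/
def hull (I : Ideal A) : Set (A → ℂ) := {x | x ∈ M ∧ ∀ f ∈ I, x f = 0}

/-- `t`-analytic subsets `E` of `M(A)`: if `f ∈ A` vanishes on a nonempty relatively open subset
`E ∩ V` of `E`, then `f` vanishes on `E` -/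
def TAnalytic (E : Set (A → ℂ)) : Prop :=
  ∀ (f : A) (V : Set (A → ℂ)), IsOpen V → (E ∩ V).Nonempty → (∀ x ∈ E ∩ V, x f = 0) →
    ∀ x ∈ E, x f = 0

/-- the identification with the ring used in the proof -/
def toA : Pool.Agent.Helper65.HP.HC ≃+* A where
  toFun F := ⟨F.1, F.2⟩
  invFun F := ⟨F.1, F.2⟩
  left_inv _ := rfl
  right_inv _ := rfl
  map_mul' _ _ := rfl
  map_add' _ _ := rfl

theorem M.one {x : A → ℂ} (hx : x ∈ M) : x 1 = 1 := by
  obtain ⟨-, -, hm, f, hf⟩ := hx
  have h := hm 1 f
  rw [one_mul] at h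
  have h2 : (x 1 - 1) * x f = 0 := by rw [sub_mul, one_mul, ← h, sub_self]
  rcases mul_eq_zero.1 h2 with h3 | h3
  · exact sub_eq_zero.1 h3
  · exact absurd h3 hf

/-- elements of `M(A)` as ring homomorphisms -/
def M.hom {x : A → ℂ} (hx : x ∈ M) : A →+* ℂ where
  toFun := x
  map_one' := M.one hx
  map_mul' := hx.2.2.1
  map_zero' := by
    have h := hx.1 0 0
    rw [add_zero] at h
    have h2 : x 0 + x 0 = x 0 + 0 := by rw [← h, add_zero]
    exact add_left_cancel h2
  map_add' := hx.1

/-- **Theorem.** The hull of every closed prime ideal of `H^∞ + C` is `t`-analytic. -/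
theorem result : ∀ I : Ideal A, I.IsPrime → IsNormClosed I → TAnalytic (hull I) := by
  intro I hp hc f V hV hne h0 x hx
  have hp' : (I.comap (toA : Pool.Agent.Helper65.HP.HC →+* A)).IsPrime :=
    Ideal.comap_isPrime _ _
  have hc' : Pool.Agent.Helper65.HP.IsClosedIdeal
      (I.comap (toA : Pool.Agent.Helper65.HP.HC →+* A)) := by
    intro F hF
    rw [Ideal.mem_comap]
    refine hc _ fun ε hε => ?_
    obtain ⟨G, hG, h⟩ := hF ε hε
    exact ⟨toA G, hG, h⟩
  have key := Pool.Agent.Helper65.HP.hull_tanalytic _ hp' hc'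
  have hdown : ∀ (x : A → ℂ) (hx : x ∈ hull I),
      (M.hom hx.1).comp (toA : Pool.Agent.Helper65.HP.HC →+* A) ∈ Pool.Agent.Helper65.HP.hull
        (I.comap (toA : Pool.Agent.Helper65.HP.HC →+* A)) := by
    intro x hx
    refine ⟨fun c => ?_, fun F hF => hx.2 _ hF⟩
    have h := hx.1.2.1 c 1
    rw [mul_one, M.one hx.1, mul_one] at h
    exact h
  refine key (toA.symm f) {y | y ∈ Pool.Agent.Helper65.HP.hull
      (I.comap (toA : Pool.Agent.Helper65.HP.HC →+* A)) ∧
      (fun F => y F) ∈ (fun (g : Pool.Agent.Helper65.HP.HC → ℂ) (F : A) => g (toA.symm F)) ⁻¹' V}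
    ⟨_, hV.preimage (continuous_pi fun F => continuous_apply (toA.symm F)), rfl⟩ ?_ ?_
    ((M.hom hx.1).comp (toA : Pool.Agent.Helper65.HP.HC →+* A)) (hdown x hx)
  · obtain ⟨x1, hx1, hx2⟩ := hne
    exact ⟨_, hdown x1 hx1, hx2⟩
  · rintro y ⟨hy1, hy2⟩
    refine h0 (fun F => y (toA.symm F)) ⟨⟨⟨fun f g => ?_, fun c f => ?_, fun f g => ?_, 1, ?_⟩,
      fun f hf => ?_⟩, hy2⟩
    · show y (toA.symm (f + g)) = y (toA.symm f) + y (toA.symm g)
      rw [map_add, map_add]
    · show y (toA.symm (const c * f)) = c * y (toA.symm f)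
      rw [map_mul, map_mul]
      exact congrArg (· * y (toA.symm f)) (hy1.1 c)
    · show y (toA.symm (f * g)) = y (toA.symm f) * y (toA.symm g)
      rw [map_mul, map_mul]
    · show y (toA.symm 1) ≠ 0
      rw [map_one, map_one]
      exact one_ne_zero
    · exact hy1.2 (toA.symm f) (by rw [Ideal.mem_comap]; exact hf)

end

end Pool.Agent.Results.MP_17493e_an.HullTAnalytic
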